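import Mathlib

/-!
# Sets with distance multiplicities `(n-1, n-2, …, 1)`: wrapped arithmetic progressions

Let `e t = (cos t, sin t)`. The points `e 0, e 1, …, e (n-1)` (angular step one radian, so that for
`n ≥ 8` the sequence runs around the unit circle more than once) determine the distances
`2 |sin (k/2)|`, `1 ≤ k ≤ n-1`. They are different because `π` is irrational, so the multiplicity of
the `k`-th one is exactly `n - k`. These points are not equally spaced points of an arc. In the same
way the centre `0` together with `e 0, …, e (n-2)` has the multiplicities `(n-1, …, 1)`, because the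
new distance `1` is different from all `2 |sin (k/2)|`.
-/

set_option autoImplicit false

namespace Pool.Agent.Results.MP_9c346b_co.WrappedProgressions

open Finset

/-- the Euclidean plane -/
abbrev Plane := EuclideanSpace ℝ (Fin 2)

/-- `mult X d`: the number of unordered pairs `{x, y} ⊆ X` with `|x - y| = d`. -/
noncomputable def mult (X : Finset Plane) (d : ℝ) : ℕ := by
  classical
  exact ((X.powersetCard 2).filter (fun s => ∃ x ∈ s, ∃ y ∈ s, x ≠ y ∧ dist x y = d)).card

/-- The set of the distances between two different points of `X`. -/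
noncomputable def dists (X : Finset Plane) : Finset ℝ := by
  classical
  exact X.offDiag.image (fun p => dist p.1 p.2)

/-- `a(X)`: the list of the multiplicities of the distances of `X`, in decreasing order. -/
noncomputable def aList (X : Finset Plane) : List ℕ :=
  ((dists X).val.map (mult X)).sort (· ≥ ·)

/-- The list `n-1, n-2, …, 1`. -/
def staircase (n : ℕ) : List ℕ := (List.range (n - 1)).map (fun i => n - 1 - i)

/-- The point with angle `t` on the unit circle. -/
noncomputable def e (t : ℝ) : Plane := !₂[Real.cos t, Real.sin t]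

/-- Type (A): `n` equally spaced points of a line. -/
def TypeA (n : ℕ) (X : Finset Plane) : Prop :=
  ∃ p v : Plane, v ≠ 0 ∧ (X : Set Plane) = {x | ∃ j : ℕ, j ≤ n - 1 ∧ x = p + (j : ℝ) • v}

/-- Type (B): `n` points equally spaced along an arc of a circle. -/
def TypeB (n : ℕ) (X : Finset Plane) : Prop :=
  ∃ (c : Plane) (r α θ : ℝ), 0 < r ∧ 0 < ((n : ℝ) - 1) * θ ∧ ((n : ℝ) - 1) * θ < 2 * Real.pi ∧
    (X : Set Plane) = {x | ∃ j : ℕ, j ≤ n - 1 ∧ x = c + r • e (α + (j : ℝ) * θ)}

/-- Type (C): the centre of a circle and `n - 1` points equally spaced along an arc of it. -/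
def TypeC (n : ℕ) (X : Finset Plane) : Prop :=
  ∃ (c : Plane) (r α θ : ℝ), 0 < r ∧ 0 < ((n : ℝ) - 2) * θ ∧ ((n : ℝ) - 2) * θ < 2 * Real.pi ∧
    (X : Set Plane) = {c} ∪ {x | ∃ j : ℕ, j ≤ n - 2 ∧ x = c + r • e (α + (j : ℝ) * θ)}

/-- `X` lies on a circle. -/
def Cocircular (X : Finset Plane) : Prop := ∃ (c : Plane) (r : ℝ), ∀ x ∈ X, dist x c = r

/-- `X` lies on a line. -/
def OnLine (X : Finset Plane) : Prop := ∃ (p v : Plane), ∀ x ∈ X, ∃ t : ℝ, x = p + t • v

/-! ### Distances -/

theorem dist_sq (x y : Plane) : dist x y ^ 2 = (x 0 - y 0) ^ 2 + (x 1 - y 1) ^ 2 := by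
  rw [EuclideanSpace.dist_eq, Real.sq_sqrt (Finset.sum_nonneg fun _ _ => by positivity),
    Fin.sum_univ_two, Real.dist_eq, Real.dist_eq, sq_abs, sq_abs]

@[simp] theorem e_zero (t : ℝ) : e t 0 = Real.cos t := by simp [e]
@[simp] theorem e_one (t : ℝ) : e t 1 = Real.sin t := by simp [e]

theorem ext2 {x y : Plane} (h0 : x 0 = y 0) (h1 : x 1 = y 1) : x = y := by
  ext i
  fin_cases i
  · exact h0
  · exact h1

theorem dist_e (c : Plane) {r : ℝ} (hr : 0 ≤ r) (s t : ℝ) :
    dist (c + r • e s) (c + r • e t) = r * (2 * |Real.sin ((s - t) / 2)|) := by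
  have h : dist (c + r • e s) (c + r • e t) ^ 2 = (r * (2 * |Real.sin ((s - t) / 2)|)) ^ 2 := by
    rw [dist_sq, mul_pow, mul_pow, sq_abs, Real.sin_sq_eq_half_sub]
    have h1 : Real.cos (2 * ((s - t) / 2)) = Real.cos s * Real.cos t + Real.sin s * Real.sin t := by
      rw [show 2 * ((s - t) / 2) = s - t by ring, Real.cos_sub]
    rw [h1]
    simp only [PiLp.add_apply, PiLp.smul_apply, smul_eq_mul, e_zero, e_one]
    have h2 := Real.sin_sq_add_cos_sq s
    have h3 := Real.sin_sq_add_cos_sq t
    linear_combination r ^ 2 * h2 + r ^ 2 * h3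
  exact (pow_left_inj₀ dist_nonneg (by positivity) (by norm_num)).1 h

theorem dist_e' (s t : ℝ) : dist (e s) (e t) = 2 * |Real.sin ((s - t) / 2)| := by
  have h := dist_e 0 (r := 1) (by norm_num) s t
  simpa using h

theorem dist_e_zero (t : ℝ) : dist (e t) 0 = 1 := by
  have h : dist (e t) 0 ^ 2 = 1 ^ 2 := by
    rw [dist_sq]
    simp only [e_zero, e_one, PiLp.zero_apply]
    have := Real.sin_sq_add_cos_sq t
    linear_combination this
  exact (pow_left_inj₀ dist_nonneg (by positivity) (by norm_num)).1 h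

/-- chord `k` of the progression -/
noncomputable def ch (k : ℕ) : ℝ := 2 * |Real.sin ((k : ℝ) / 2)|

theorem not_rat_pi {a b : ℤ} (hb : b ≠ 0) : (a : ℝ) ≠ b * Real.pi := by
  intro h
  apply irrational_pi
  refine ⟨(a : ℚ) / b, ?_⟩
  have hb' : (b : ℝ) ≠ 0 := by exact_mod_cast hb
  push_cast
  field_simp
  linarith

theorem ch_inj {k l : ℕ} (hkl : ch k = ch l) : k = l := by
  unfold ch at hkl
  have h1 : Real.sin ((k : ℝ) / 2) ^ 2 = Real.sin ((l : ℝ) / 2) ^ 2 := by
    rw [← sq_abs, ← sq_abs (Real.sin ((l : ℝ) / 2))]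
    congr 1
    linarith
  rw [Real.sin_sq_eq_half_sub, Real.sin_sq_eq_half_sub] at h1
  have h2 : Real.cos (k : ℝ) = Real.cos (l : ℝ) := by
    have e1 : 2 * ((k : ℝ) / 2) = k := by ring
    have e2 : 2 * ((l : ℝ) / 2) = l := by ring
    rw [e1, e2] at h1
    linarith
  rw [Real.cos_eq_cos_iff] at h2
  obtain ⟨m, hm⟩ := h2
  rcases hm with hm | hm
  · by_cases hm0 : m = 0
    · subst hm0
      simp at hm
      exact_mod_cast hm.symm
    · exfalso
      apply not_rat_pi (a := (l : ℤ) - k) (b := 2 * m) (by omega)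
      push_cast
      linarith
  · by_cases hm0 : m = 0
    · subst hm0
      have h3 : (l : ℝ) = -(k : ℝ) := by simpa using hm
      have hk : (0 : ℝ) ≤ k := Nat.cast_nonneg _
      have hl : (0 : ℝ) ≤ l := Nat.cast_nonneg _
      have : (k : ℝ) = 0 := by linarith
      have h4 : (l : ℝ) = 0 := by linarith
      have h5 : k = 0 := by exact_mod_cast this
      have h6 : l = 0 := by exact_mod_cast h4
      omega
    · exfalso
      apply not_rat_pi (a := (l : ℤ) + k) (b := 2 * m) (by omega)
      push_cast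
      linarith

theorem ch_ne_one (k : ℕ) : ch k ≠ 1 := by
  intro h
  unfold ch at h
  have h1 : Real.sin ((k : ℝ) / 2) ^ 2 = 1 / 4 := by
    rw [← sq_abs]
    have : |Real.sin ((k : ℝ) / 2)| = 1 / 2 := by linarith
    rw [this]
    norm_num
  rw [Real.sin_sq_eq_half_sub] at h1
  have h2 : Real.cos (k : ℝ) = Real.cos (Real.pi / 3) := by
    have e1 : 2 * ((k : ℝ) / 2) = k := by ring
    rw [e1] at h1
    rw [Real.cos_pi_div_three]
    linarith
  rw [Real.cos_eq_cos_iff] at h2
  obtain ⟨m, hm⟩ := h2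
  rcases hm with hm | hm
  · apply not_rat_pi (a := 3 * (k : ℤ)) (b := 1 - 6 * m) (by omega)
    push_cast
    linarith
  · apply not_rat_pi (a := 3 * (k : ℤ)) (b := 6 * m - 1) (by omega)
    push_cast
    linarith

theorem ch_pos {k : ℕ} (hk : 1 ≤ k) : 0 < ch k := by
  have h : ch k ≠ ch 0 := fun h => by have := ch_inj h; omega
  have h0 : ch 0 = 0 := by simp [ch]
  have h1 : 0 ≤ ch k := by unfold ch; positivity
  rw [h0] at h
  exact lt_of_le_of_ne h1 (Ne.symm h)

/-! ### Multiplicities of a family of points whose pairs are sorted into classes -/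

section general

variable {n : ℕ} {f : ℕ → Plane} {κ : ℕ → ℕ → ℕ} {D : ℕ → ℝ}

/-- the pairs `i < j < n` in class `t` -/
def cls (n : ℕ) (κ : ℕ → ℕ → ℕ) (t : ℕ) : Finset (ℕ × ℕ) :=
  (range n ×ˢ range n).filter (fun p => p.1 < p.2 ∧ κ p.1 p.2 = t)

theorem mem_cls {p : ℕ × ℕ} {t : ℕ} :
    p ∈ cls n κ t ↔ p.1 < p.2 ∧ p.2 < n ∧ κ p.1 p.2 = t := by
  unfold cls
  rw [mem_filter, mem_product, mem_range, mem_range]
  constructor
  · rintro ⟨⟨h1, h2⟩, h3, h4⟩
    exact ⟨h3, h2, h4⟩
  · rintro ⟨h1, h2, h3⟩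
    exact ⟨⟨by omega, h2⟩, h1, h3⟩

/-- The set of the first `n` points. -/
noncomputable def pts (n : ℕ) (f : ℕ → Plane) : Finset Plane := by
  classical
  exact (range n).image f

theorem mem_pts {x : Plane} : x ∈ pts n f ↔ ∃ i < n, f i = x := by
  classical
  unfold pts
  rw [mem_image]
  simp only [mem_range]

theorem card_pts (hf : ∀ i < n, ∀ j < n, f i = f j → i = j) : (pts n f).card = n := by
  classical
  unfold pts
  rw [card_image_of_injOn, card_range]
  intro i hi j hj h
  exact hf i (by simpa using hi) j (by simpa using hj) h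

theorem mult_eq (hf : ∀ i < n, ∀ j < n, f i = f j → i = j)
    (hd : ∀ i j, i < j → j < n → dist (f i) (f j) = D (κ i j))
    (hDi : ∀ s < n - 1, ∀ t < n - 1, D s = D t → s = t)
    (hκ : ∀ i j, i < j → j < n → κ i j < n - 1) {t : ℕ} (ht : t < n - 1) :
    mult (pts n f) (D t) = (cls n κ t).card := by
  classical
  unfold mult
  symm
  apply card_bij (fun p _ => ({f p.1, f p.2} : Finset Plane))
  · intro p hp
    rw [mem_cls] at hp
    obtain ⟨h1, h2, h3⟩ := hp
    have hne : f p.1 ≠ f p.2 := fun h => by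
      have := hf _ (by omega) _ h2 h
      omega
    rw [mem_filter, mem_powersetCard]
    refine ⟨⟨?_, card_pair hne⟩, f p.1, by simp, f p.2, by simp, hne, ?_⟩
    · intro x hx
      rw [mem_insert, mem_singleton] at hx
      rcases hx with rfl | rfl
      · exact mem_pts.2 ⟨_, by omega, rfl⟩
      · exact mem_pts.2 ⟨_, h2, rfl⟩
    · rw [hd _ _ h1 h2, h3]
  · intro p hp q hq h
    rw [mem_cls] at hp hq
    obtain ⟨h1, h2, h3⟩ := hp
    obtain ⟨g1, g2, g3⟩ := hq
    have a1 : f p.1 ∈ ({f q.1, f q.2} : Finset Plane) := by rw [← h]; simp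
    have a2 : f p.2 ∈ ({f q.1, f q.2} : Finset Plane) := by rw [← h]; simp
    rw [mem_insert, mem_singleton] at a1 a2
    rcases a1 with a1 | a1 <;> rcases a2 with a2 | a2
    · have b1 := hf _ (by omega) _ (by omega) a1
      have b2 := hf _ h2 _ (by omega) a2
      omega
    · have b1 := hf _ (by omega) _ (by omega) a1
      have b2 := hf _ h2 _ g2 a2
      exact Prod.ext b1 b2
    · have b1 := hf _ (by omega) _ g2 a1
      have b2 := hf _ h2 _ (by omega) a2
      omega
    · have b1 := hf _ (by omega) _ g2 a1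
      have b2 := hf _ h2 _ g2 a2
      omega
  · intro s hs
    rw [mem_filter, mem_powersetCard] at hs
    obtain ⟨⟨hs1, hs2⟩, x, hx, y, hy, hxy, hdxy⟩ := hs
    obtain ⟨i, hi, rfl⟩ := mem_pts.1 (hs1 hx)
    obtain ⟨j, hj, rfl⟩ := mem_pts.1 (hs1 hy)
    have hsub : ({f i, f j} : Finset Plane) ⊆ s := by
      intro z hz
      rw [mem_insert, mem_singleton] at hz
      rcases hz with rfl | rfl
      · exact hx
      · exact hy
    have hseq : ({f i, f j} : Finset Plane) = s :=
      eq_of_subset_of_card_le hsub (by rw [hs2, card_pair hxy])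
    have hij : i ≠ j := fun h => hxy (by rw [h])
    rcases lt_or_gt_of_ne hij with h | h
    · refine ⟨(i, j), mem_cls.2 ⟨h, hj, ?_⟩, hseq⟩
      apply hDi _ (hκ i j h hj) _ ht
      rw [← hd i j h hj, hdxy]
    · refine ⟨(j, i), mem_cls.2 ⟨h, hi, ?_⟩, ?_⟩
      · apply hDi _ (hκ j i h hi) _ ht
        rw [← hd j i h hi, dist_comm, hdxy]
      · rw [← hseq, pair_comm]

theorem mult_eq_zero {X : Finset Plane} {d : ℝ} (h : d ∉ dists X) : mult X d = 0 := by
  classical
  unfold mult
  rw [card_eq_zero, filter_eq_empty_iff]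
  rintro s hs ⟨x, hx, y, hy, hxy, hd⟩
  apply h
  unfold dists
  rw [mem_image]
  rw [mem_powersetCard] at hs
  exact ⟨(x, y), mem_offDiag.2 ⟨hs.1 hx, hs.1 hy, hxy⟩, hd⟩

theorem dists_eq (hf : ∀ i < n, ∀ j < n, f i = f j → i = j)
    (hd : ∀ i j, i < j → j < n → dist (f i) (f j) = D (κ i j))
    (hκ : ∀ i j, i < j → j < n → κ i j < n - 1)
    (hc : ∀ t < n - 1, (cls n κ t).card = n - 1 - t) :
    dists (pts n f) = (range (n - 1)).image D := by
  classical
  ext d
  unfold dists
  rw [mem_image, mem_image]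
  constructor
  · rintro ⟨⟨x, y⟩, hxy, rfl⟩
    rw [mem_offDiag] at hxy
    obtain ⟨h1, h2, h3⟩ := hxy
    obtain ⟨i, hi, rfl⟩ := mem_pts.1 h1
    obtain ⟨j, hj, rfl⟩ := mem_pts.1 h2
    have hij : i ≠ j := fun h => h3 (by rw [h])
    rcases lt_or_gt_of_ne hij with h | h
    · exact ⟨κ i j, mem_range.2 (hκ i j h hj), (hd i j h hj).symm⟩
    · exact ⟨κ j i, mem_range.2 (hκ j i h hi), by rw [dist_comm]; exact (hd j i h hi).symm⟩
  · rintro ⟨t, ht, rfl⟩
    rw [mem_range] at ht
    have h1 : 0 < (cls n κ t).card := by rw [hc t ht]; omega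
    obtain ⟨p, hp⟩ := card_pos.1 h1
    rw [mem_cls] at hp
    obtain ⟨h1, h2, h3⟩ := hp
    refine ⟨(f p.1, f p.2), mem_offDiag.2 ⟨mem_pts.2 ⟨_, by omega, rfl⟩, mem_pts.2 ⟨_, h2, rfl⟩,
      ?_⟩, ?_⟩
    · intro h
      have := hf _ (by omega) _ h2 h
      omega
    · rw [← h3]
      exact hd _ _ h1 h2

theorem aList_eq (hf : ∀ i < n, ∀ j < n, f i = f j → i = j)
    (hd : ∀ i j, i < j → j < n → dist (f i) (f j) = D (κ i j))
    (hDi : ∀ s < n - 1, ∀ t < n - 1, D s = D t → s = t)
    (hκ : ∀ i j, i < j → j < n → κ i j < n - 1)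
    (hc : ∀ t < n - 1, (cls n κ t).card = n - 1 - t) :
    aList (pts n f) = staircase n := by
  classical
  have h1 : (dists (pts n f)).val.map (mult (pts n f)) = (staircase n : Multiset ℕ) := by
    rw [dists_eq hf hd hκ hc, image_val_of_injOn]
    · rw [Multiset.map_map]
      unfold staircase
      rw [← Multiset.map_coe]
      apply Multiset.map_congr
      · rfl
      · intro t ht
        have ht' : t < n - 1 := by simpa using ht
        show mult (pts n f) (D t) = n - 1 - t
        rw [mult_eq hf hd hDi hκ ht', hc t ht']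
    · intro s hs t ht h
      exact hDi s (by simpa using hs) t (by simpa using ht) h
  unfold aList
  rw [h1, Multiset.coe_sort]
  apply List.mergeSort_eq_self
  unfold staircase
  rw [List.pairwise_map]
  apply List.Pairwise.imp _ List.pairwise_lt_range
  intro a b hab
  omega

/-- A distance that occurs at least `n - 1` times is `D 0`. -/
theorem eq_of_mult (hf : ∀ i < n, ∀ j < n, f i = f j → i = j)
    (hd : ∀ i j, i < j → j < n → dist (f i) (f j) = D (κ i j))
    (hDi : ∀ s < n - 1, ∀ t < n - 1, D s = D t → s = t)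
    (hκ : ∀ i j, i < j → j < n → κ i j < n - 1)
    (hc : ∀ t < n - 1, (cls n κ t).card = n - 1 - t) (hn : 2 ≤ n) {d : ℝ}
    (h : n - 1 ≤ mult (pts n f) d) : d = D 0 := by
  classical
  by_cases hdd : d ∈ dists (pts n f)
  · rw [dists_eq hf hd hκ hc, mem_image] at hdd
    obtain ⟨t, ht, rfl⟩ := hdd
    rw [mem_range] at ht
    rw [mult_eq hf hd hDi hκ ht, hc t ht] at h
    have : t = 0 := by omega
    rw [this]
  · rw [mult_eq_zero hdd] at h
    omega

end general

/-! ### Circles and lines -/

/-- A line meets the unit circle in at most two points. -/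
theorem line_circle {x y z c : Plane} {s : ℝ} (hc : c ≠ 0) (hx : dist x 0 = 1) (hy : dist y 0 = 1)
    (hz : dist z 0 = 1) (hxs : x 0 * c 0 + x 1 * c 1 = s) (hys : y 0 * c 0 + y 1 * c 1 = s)
    (hzs : z 0 * c 0 + z 1 * c 1 = s) (hxy : x ≠ y) (hxz : x ≠ z) (hyz : y ≠ z) : False := by
  have hx2 := dist_sq x 0
  have hy2 := dist_sq y 0
  have hz2 := dist_sq z 0
  rw [hx] at hx2
  rw [hy] at hy2
  rw [hz] at hz2
  simp only [PiLp.zero_apply, sub_zero, one_pow] at hx2 hy2 hz2
  have hN : 0 < c 0 ^ 2 + c 1 ^ 2 := by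
    by_contra h
    have h0 : c 0 = 0 := by nlinarith [sq_nonneg (c 0), sq_nonneg (c 1)]
    have h1 : c 1 = 0 := by nlinarith [sq_nonneg (c 0), sq_nonneg (c 1)]
    exact hc (ext2 (by simpa using h0) (by simpa using h1))
  -- the second coordinate
  have key : ∀ u : Plane, u 0 ^ 2 + u 1 ^ 2 = 1 → u 0 * c 0 + u 1 * c 1 = s →
      (u 0 * c 1 - u 1 * c 0) ^ 2 = c 0 ^ 2 + c 1 ^ 2 - s ^ 2 := by
    intro u h1 h2
    rw [← h2]
    linear_combination (c 0 ^ 2 + c 1 ^ 2) * h1
  have inj : ∀ u w : Plane, u 0 * c 0 + u 1 * c 1 = s → w 0 * c 0 + w 1 * c 1 = s →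
      u 0 * c 1 - u 1 * c 0 = w 0 * c 1 - w 1 * c 0 → u = w := by
    intro u w h1 h2 h3
    apply ext2
    · have : (c 0 ^ 2 + c 1 ^ 2) * (u 0 - w 0) = 0 := by
        linear_combination c 0 * (h1 - h2) + c 1 * h3
      rcases mul_eq_zero.1 this with h | h
      · exact absurd h hN.ne'
      · linarith
    · have : (c 0 ^ 2 + c 1 ^ 2) * (u 1 - w 1) = 0 := by
        linear_combination c 1 * (h1 - h2) - c 0 * h3
      rcases mul_eq_zero.1 this with h | h
      · exact absurd h hN.ne'
      · linarith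
  have kx := key x (by linarith) hxs
  have ky := key y (by linarith) hys
  have kz := key z (by linarith) hzs
  have hxy' : (x 0 * c 1 - x 1 * c 0) = -(y 0 * c 1 - y 1 * c 0) := by
    have h1 : (x 0 * c 1 - x 1 * c 0) ^ 2 = (y 0 * c 1 - y 1 * c 0) ^ 2 := by rw [kx, ky]
    rcases sq_eq_sq_iff_eq_or_eq_neg.1 h1 with h | h
    · exact absurd (inj x y hxs hys h) hxy
    · exact h
  have hxz' : (x 0 * c 1 - x 1 * c 0) = -(z 0 * c 1 - z 1 * c 0) := by
    have h1 : (x 0 * c 1 - x 1 * c 0) ^ 2 = (z 0 * c 1 - z 1 * c 0) ^ 2 := by rw [kx, kz]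
    rcases sq_eq_sq_iff_eq_or_eq_neg.1 h1 with h | h
    · exact absurd (inj x z hxs hzs h) hxz
    · exact h
  exact hyz (inj y z hys hzs (by linarith))

/-- Two circles with three common points are equal. -/
theorem circle_circle {x y z c : Plane} {r : ℝ} (hx : dist x 0 = 1)
    (hy : dist y 0 = 1) (hz : dist z 0 = 1) (hxc : dist x c = r) (hyc : dist y c = r)
    (hzc : dist z c = r) (hxy : x ≠ y) (hxz : x ≠ z) (hyz : y ≠ z) : c = 0 ∧ r = 1 := by
  have hx2 := dist_sq x 0
  have hy2 := dist_sq y 0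
  have hz2 := dist_sq z 0
  have hx3 := dist_sq x c
  have hy3 := dist_sq y c
  have hz3 := dist_sq z c
  rw [hx] at hx2
  rw [hy] at hy2
  rw [hz] at hz2
  rw [hxc] at hx3
  rw [hyc] at hy3
  rw [hzc] at hz3
  simp only [PiLp.zero_apply, sub_zero, one_pow] at hx2 hy2 hz2
  have hc : c = 0 := by
    by_contra hc
    exact line_circle (s := (1 + c 0 ^ 2 + c 1 ^ 2 - r ^ 2) / 2) hc hx hy hz
      (by linear_combination (1 / 2) * hx3 - (1 / 2) * hx2)
      (by linear_combination (1 / 2) * hy3 - (1 / 2) * hy2)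
      (by linear_combination (1 / 2) * hz3 - (1 / 2) * hz2) hxy hxz hyz
  refine ⟨hc, ?_⟩
  rw [hc, hx] at hxc
  exact hxc.symm

/-- Three points of the unit circle are not on a line. -/
theorem not_onLine {X : Finset Plane} {x y z : Plane} (hx : x ∈ X) (hy : y ∈ X) (hz : z ∈ X)
    (hx1 : dist x 0 = 1) (hy1 : dist y 0 = 1) (hz1 : dist z 0 = 1) (hxy : x ≠ y) (hxz : x ≠ z)
    (hyz : y ≠ z) : ¬ OnLine X := by
  rintro ⟨p, v, h⟩
  obtain ⟨a, ha⟩ := h x hx
  obtain ⟨b, hb⟩ := h y hy
  obtain ⟨c, hc⟩ := h z hz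
  have hv : v ≠ 0 := by
    rintro rfl
    apply hxy
    rw [ha, hb]
    simp
  -- the normal vector
  set w : Plane := !₂[-v 1, v 0] with hw
  have hw0 : w ≠ 0 := by
    intro h0
    apply hv
    have h1 : w 0 = 0 := by rw [h0]; simp
    have h2 : w 1 = 0 := by rw [h0]; simp
    simp only [hw, Matrix.cons_val_zero, Matrix.cons_val_one, PiLp.toLp_apply] at h1 h2
    apply ext2
    · simpa using h2
    · simpa using h1
  have key : ∀ t : ℝ, (p + t • v) 0 * w 0 + (p + t • v) 1 * w 1 = -p 0 * v 1 + p 1 * v 0 := by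
    intro t
    simp only [hw, PiLp.add_apply, PiLp.smul_apply, smul_eq_mul, Matrix.cons_val_zero,
      Matrix.cons_val_one, PiLp.toLp_apply]
    ring
  exact line_circle (c := w) (s := -p 0 * v 1 + p 1 * v 0) hw0 hx1 hy1 hz1
    (by rw [ha]; exact key a) (by rw [hb]; exact key b) (by rw [hc]; exact key c) hxy hxz hyz

theorem typeA_onLine {n : ℕ} {X : Finset Plane} (h : TypeA n X) : OnLine X := by
  obtain ⟨p, v, -, h⟩ := h
  refine ⟨p, v, fun x hx => ?_⟩
  have : x ∈ (X : Set Plane) := hx
  rw [h] at this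
  obtain ⟨j, -, hj⟩ := this
  exact ⟨j, hj⟩

/-! ### The two families -/

/-- the wrapped progression -/
noncomputable def fB (j : ℕ) : Plane := e (j : ℝ)

/-- the wrapped progression and its centre -/
noncomputable def fC (n : ℕ) (j : ℕ) : Plane := if j = n - 1 then 0 else e (j : ℝ)

theorem dist_fB (i j : ℕ) (h : i < j) : dist (fB i) (fB j) = ch (j - i) := by
  unfold fB ch
  rw [dist_comm, dist_e', Nat.cast_sub h.le]

theorem fB_inj {i j : ℕ} (h : fB i = fB j) : i = j := by
  by_contra hij
  rcases lt_or_gt_of_ne hij with h1 | h1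
  · have h2 := dist_fB i j h1
    rw [h, dist_self] at h2
    exact (ch_pos (by omega)).ne h2
  · have h2 := dist_fB j i h1
    rw [h, dist_self] at h2
    exact (ch_pos (by omega)).ne h2

theorem dist_fB_zero (i : ℕ) : dist (fB i) 0 = 1 := dist_e_zero _

theorem fB_ne_zero (i : ℕ) : fB i ≠ 0 := by
  intro h
  have := dist_fB_zero i
  rw [h, dist_self] at this
  norm_num at this

/-- class of a pair in the first family -/
def κB (i j : ℕ) : ℕ := j - i - 1

/-- class of a pair in the second family -/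
def κC (n : ℕ) (i j : ℕ) : ℕ := if j = n - 1 then 0 else j - i

theorem card_clsB (n t : ℕ) : (cls n κB t).card = n - 1 - t := by
  rw [show n - 1 - t = (range (n - 1 - t)).card by rw [card_range]]
  symm
  apply card_bij (fun i _ => (i, i + t + 1))
  · intro i hi
    rw [mem_range] at hi
    rw [mem_cls]
    refine ⟨by simp only; omega, by simp only; omega, ?_⟩
    unfold κB
    simp only
    omega
  · intro i _ j _ h
    exact (Prod.ext_iff.1 h).1
  · rintro ⟨i, j⟩ hp
    rw [mem_cls] at hp
    obtain ⟨h1, h2, h3⟩ := hp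
    unfold κB at h3
    simp only at h1 h2 h3
    refine ⟨i, mem_range.2 (by omega), ?_⟩
    rw [Prod.mk.injEq]
    exact ⟨rfl, by omega⟩

theorem card_clsC (n t : ℕ) (ht : t < n - 1) : (cls n (κC n) t).card = n - 1 - t := by
  rw [show n - 1 - t = (range (n - 1 - t)).card by rw [card_range]]
  symm
  by_cases h0 : t = 0
  · subst h0
    apply card_bij (fun i _ => (i, n - 1))
    · intro i hi
      rw [mem_range] at hi
      rw [mem_cls]
      refine ⟨by simp only; omega, by simp only; omega, ?_⟩
      unfold κC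
      simp
    · intro i _ j _ h
      exact (Prod.ext_iff.1 h).1
    · rintro ⟨i, j⟩ hp
      rw [mem_cls] at hp
      obtain ⟨h1, h2, h3⟩ := hp
      unfold κC at h3
      simp only at h1 h2 h3
      split_ifs at h3 with h4
      · refine ⟨i, mem_range.2 (by omega), ?_⟩
        rw [Prod.mk.injEq]
        exact ⟨rfl, by omega⟩
      · omega
  · apply card_bij (fun i _ => (i, i + t))
    · intro i hi
      rw [mem_range] at hi
      rw [mem_cls]
      refine ⟨by simp only; omega, by simp only; omega, ?_⟩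
      unfold κC
      simp only
      split_ifs with h4
      · omega
      · omega
    · intro i _ j _ h
      exact (Prod.ext_iff.1 h).1
    · rintro ⟨i, j⟩ hp
      rw [mem_cls] at hp
      obtain ⟨h1, h2, h3⟩ := hp
      unfold κC at h3
      simp only at h1 h2 h3
      split_ifs at h3 with h4
      · omega
      · refine ⟨i, mem_range.2 (by omega), ?_⟩
        rw [Prod.mk.injEq]
        exact ⟨rfl, by omega⟩

theorem aB (n : ℕ) : aList (pts n fB) = staircase n := by
  apply aList_eq (κ := κB) (D := fun t => ch (t + 1))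
  · intro i _ j _ h
    exact fB_inj h
  · intro i j h _
    rw [dist_fB i j h]
    unfold κB
    congr 1
    omega
  · intro s _ t _ h
    have := ch_inj h
    omega
  · intro i j h1 h2
    unfold κB
    omega
  · intro t _
    exact card_clsB n t

/-- distances of the second family -/
noncomputable def DC (t : ℕ) : ℝ := if t = 0 then 1 else ch t

theorem DC_inj {s t : ℕ} (h : DC s = DC t) : s = t := by
  unfold DC at h
  split_ifs at h with h1 h2 h2
  · omega
  · exact absurd h.symm (ch_ne_one t)
  · exact absurd h (ch_ne_one s)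
  · exact ch_inj h

theorem aC (n : ℕ) : aList (pts n (fC n)) = staircase n := by
  apply aList_eq (κ := κC n) (D := DC)
  · intro i hi j hj h
    unfold fC at h
    split_ifs at h with h1 h2 h2
    · omega
    · exact absurd h.symm (fB_ne_zero j)
    · exact absurd h (fB_ne_zero i)
    · exact fB_inj h
  · intro i j h1 h2
    unfold fC κC DC
    rw [if_neg (show ¬ i = n - 1 by omega)]
    by_cases h3 : j = n - 1
    · rw [if_pos h3, if_pos h3, if_pos rfl]
      exact dist_fB_zero i
    · rw [if_neg h3, if_neg h3, if_neg (by omega)]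
      exact dist_fB i j h1
  · intro s _ t _ h
    exact DC_inj h
  · intro i j h1 h2
    unfold κC
    split_ifs with h3
    · omega
    · omega
  · intro t ht
    exact card_clsC n t ht

theorem card_fB (n : ℕ) : (pts n fB).card = n := card_pts fun i _ j _ h => fB_inj h

theorem card_fC (n : ℕ) : (pts n (fC n)).card = n := by
  apply card_pts
  intro i hi j hj h
  unfold fC at h
  split_ifs at h with h1 h2 h2
  · omega
  · exact absurd h.symm (fB_ne_zero j)
  · exact absurd h (fB_ne_zero i)
  · exact fB_inj h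

theorem fB_mem_fC {n i : ℕ} (hi : i < n - 1) : fB i ∈ pts n (fC n) :=
  mem_pts.2 ⟨i, by omega, by unfold fC; rw [if_neg (by omega)]; rfl⟩

theorem zero_mem_fC {n : ℕ} (hn : 1 ≤ n) : (0 : Plane) ∈ pts n (fC n) :=
  mem_pts.2 ⟨n - 1, by omega, by unfold fC; rw [if_pos rfl]⟩

theorem dist_center (c : Plane) {r : ℝ} (hr : 0 < r) (t : ℝ) : dist (c + r • e t) c = r := by
  have h : dist (c + r • e t) c ^ 2 = r ^ 2 := by
    rw [dist_sq]
    simp only [PiLp.add_apply, PiLp.smul_apply, smul_eq_mul, e_zero, e_one]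
    have := Real.sin_sq_add_cos_sq t
    linear_combination r ^ 2 * this
  exact (pow_left_inj₀ dist_nonneg hr.le (by norm_num)).1 h

/-- consecutive points: a lower bound for a multiplicity -/
theorem mult_ge {X : Finset Plane} {n : ℕ} {g : ℕ → Plane} {d : ℝ}
    (hg : ∀ i < n, ∀ j < n, g i = g j → i = j) (hgX : ∀ i < n, g i ∈ X)
    (hd : ∀ i, i + 1 < n → dist (g i) (g (i + 1)) = d) : n - 1 ≤ mult X d := by
  classical
  unfold mult
  rw [show n - 1 = (range (n - 1)).card by rw [card_range]]
  apply card_le_card_of_injOn (fun i => ({g i, g (i + 1)} : Finset Plane))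
  · intro i hi
    have hi' : i < n - 1 := by simpa using hi
    have hne : g i ≠ g (i + 1) := fun h => by
      have := hg _ (by omega) _ (by omega) h
      omega
    rw [mem_coe, mem_filter, mem_powersetCard]
    refine ⟨⟨?_, card_pair hne⟩, g i, by simp, g (i + 1), by simp, hne, hd i (by omega)⟩
    intro x hx
    rw [mem_insert, mem_singleton] at hx
    rcases hx with rfl | rfl
    · exact hgX _ (by omega)
    · exact hgX _ (by omega)
  · intro i hi j hj h
    have hi' : i < n - 1 := by simpa using hi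
    have hj' : j < n - 1 := by simpa using hj
    simp only at h
    have a1 : g i ∈ ({g j, g (j + 1)} : Finset Plane) := by rw [← h]; simp
    have a2 : g (i + 1) ∈ ({g j, g (j + 1)} : Finset Plane) := by rw [← h]; simp
    rw [mem_insert, mem_singleton] at a1 a2
    rcases a1 with a1 | a1
    · exact hg _ (by omega) _ (by omega) a1
    · rcases a2 with a2 | a2
      · have b1 := hg _ (by omega) _ (by omega) a1
        have b2 := hg _ (by omega) _ (by omega) a2
        omega
      · have b2 := hg _ (by omega) _ (by omega) a2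
        omega

theorem mem_iff_of_coe {X : Finset Plane} {S : Set Plane} (h : (X : Set Plane) = S) (x : Plane) :
    x ∈ X ↔ x ∈ S := by
  rw [← h]
  exact Iff.rfl

theorem not_typeB {n : ℕ} (hn : 8 ≤ n) : ¬ TypeB n (pts n fB) := by
  classical
  rintro ⟨c, r, α, θ, hr, h1, h2, hX⟩
  set g : ℕ → Plane := fun j => c + r • e (α + (j : ℝ) * θ) with hg
  have hmem : ∀ x, x ∈ pts n fB ↔ ∃ j, j ≤ n - 1 ∧ x = g j := by
    intro x
    exact mem_iff_of_coe hX x
  have himg : (range n).image g = pts n fB := by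
    ext x
    rw [hmem, mem_image]
    constructor
    · rintro ⟨j, hj, rfl⟩
      rw [mem_range] at hj
      exact ⟨j, by omega, rfl⟩
    · rintro ⟨j, hj, rfl⟩
      exact ⟨j, mem_range.2 (by omega), rfl⟩
  have hinj : Set.InjOn g (range n : Set ℕ) := by
    rw [← card_image_iff, himg, card_fB, card_range]
  have hginj : ∀ i < n, ∀ j < n, g i = g j → i = j := by
    intro i hi j hj h
    exact hinj (by simpa using hi) (by simpa using hj) h
  have hn8 : (8 : ℝ) ≤ n := by exact_mod_cast hn
  have hθ : 0 < θ := by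
    by_contra h
    push Not at h
    nlinarith
  have hθ2 : θ * 7 < 2 * Real.pi := by nlinarith
  have hpi := Real.pi_lt_d2
  have hpi3 := Real.pi_gt_three
  -- the common distance of consecutive points
  have hd : ∀ i, i + 1 < n → dist (g i) (g (i + 1)) = r * (2 * Real.sin (θ / 2)) := by
    intro i _
    rw [hg]
    simp only
    rw [dist_comm, dist_e c hr.le]
    congr 2
    rw [show (α + ((i + 1 : ℕ) : ℝ) * θ - (α + (i : ℝ) * θ)) / 2 = θ / 2 by push_cast; ring]
    apply abs_of_nonneg
    exact Real.sin_nonneg_of_nonneg_of_le_pi (by linarith) (by linarith)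
  have hm : n - 1 ≤ mult (pts n fB) (r * (2 * Real.sin (θ / 2))) :=
    mult_ge hginj (fun i hi => (hmem _).2 ⟨i, by omega, rfl⟩) hd
  have heq : r * (2 * Real.sin (θ / 2)) = ch (0 + 1) := by
    apply eq_of_mult (n := n) (f := fB) (κ := κB) (D := fun t => ch (t + 1)) _ _ _ _ _ (by omega) hm
    · intro i _ j _ h
      exact fB_inj h
    · intro i j h _
      rw [dist_fB i j h]
      unfold κB
      congr 1
      omega
    · intro s _ t _ h
      have := ch_inj h
      omega
    · intro i j h1 h2
      unfold κB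
      omega
    · intro t ht
      exact card_clsB n t
  have hcirc : ∀ i < n, dist (fB i) c = r := by
    intro i hi
    obtain ⟨j, -, hj⟩ := (hmem (fB i)).1 (mem_pts.2 ⟨i, hi, rfl⟩)
    rw [hj]
    exact dist_center c hr _
  have hcr := circle_circle (dist_fB_zero 0) (dist_fB_zero 1) (dist_fB_zero 2)
    (hcirc 0 (by omega)) (hcirc 1 (by omega)) (hcirc 2 (by omega))
    (fun h => by have := fB_inj h; omega) (fun h => by have := fB_inj h; omega)
    (fun h => by have := fB_inj h; omega)
  rw [hcr.2, one_mul] at heq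
  unfold ch at heq
  have hs : Real.sin (θ / 2) = |Real.sin (1 / 2)| := by
    norm_num at heq
    norm_num
    linarith
  rw [abs_of_nonneg (Real.sin_nonneg_of_nonneg_of_le_pi (by norm_num) (by linarith))] at hs
  have hlt : Real.sin (θ / 2) < Real.sin (1 / 2) :=
    Real.sin_lt_sin_of_lt_of_le_pi_div_two (by linarith) (by linarith) (by linarith)
  linarith

/-- three of the first four points avoid a given point -/
theorem three_of_four (c : Plane) : ∃ i j k : ℕ, i < 4 ∧ j < 4 ∧ k < 4 ∧ i ≠ j ∧ i ≠ k ∧ j ≠ k ∧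
    fB i ≠ c ∧ fB j ≠ c ∧ fB k ≠ c := by
  by_cases h0 : fB 0 = c
  · refine ⟨1, 2, 3, by omega, by omega, by omega, by omega, by omega, by omega, ?_, ?_, ?_⟩ <;>
    · intro h
      have := fB_inj (h.trans h0.symm)
      omega
  · by_cases h1 : fB 1 = c
    · refine ⟨0, 2, 3, by omega, by omega, by omega, by omega, by omega, by omega, h0, ?_, ?_⟩ <;>
      · intro h
        have := fB_inj (h.trans h1.symm)
        omega
    · by_cases h2 : fB 2 = c
      · refine ⟨0, 1, 3, by omega, by omega, by omega, by omega, by omega, by omega, h0, h1, ?_⟩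
        intro h
        have := fB_inj (h.trans h2.symm)
        omega
      · exact ⟨0, 1, 2, by omega, by omega, by omega, by omega, by omega, by omega, h0, h1, h2⟩

/-- The result. -/
theorem result :
    (∀ n : ℕ, 8 ≤ n → ∃ X : Finset Plane, X.card = n ∧ aList X = staircase n ∧ Cocircular X ∧
      ¬ TypeA n X ∧ ¬ TypeB n X ∧ ¬ TypeC n X) ∧
    (∀ n : ℕ, 9 ≤ n → ∃ X : Finset Plane, X.card = n ∧ aList X = staircase n ∧ ¬ Cocircular X ∧
      ¬ TypeA n X ∧ ¬ TypeB n X ∧ ¬ TypeC n X) := by
  classical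
  constructor
  · intro n hn
    have hmemB : ∀ i < n, fB i ∈ pts n fB := fun i hi => mem_pts.2 ⟨i, hi, rfl⟩
    refine ⟨pts n fB, card_fB n, aB n, ⟨0, 1, ?_⟩, ?_, not_typeB hn, ?_⟩
    · intro x hx
      obtain ⟨i, -, rfl⟩ := mem_pts.1 hx
      exact dist_fB_zero i
    · intro h
      exact not_onLine (hmemB 0 (by omega)) (hmemB 1 (by omega)) (hmemB 2 (by omega))
        (dist_fB_zero 0) (dist_fB_zero 1) (dist_fB_zero 2)
        (fun h => by have := fB_inj h; omega) (fun h => by have := fB_inj h; omega)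
        (fun h => by have := fB_inj h; omega) (typeA_onLine h)
    · rintro ⟨c, r, α, θ, hr, h1, h2, hX⟩
      have hmem : ∀ x, x ∈ pts n fB ↔ x = c ∨ ∃ j, j ≤ n - 2 ∧ x = c + r • e (α + (j : ℝ) * θ) := by
        intro x
        exact mem_iff_of_coe hX x
      have hcirc : ∀ i < n, fB i ≠ c → dist (fB i) c = r := by
        intro i hi hic
        rcases (hmem (fB i)).1 (hmemB i hi) with h | ⟨j, -, hj⟩
        · exact absurd h hic
        · rw [hj]
          exact dist_center c hr _
      obtain ⟨i, j, k, hi, hj, hk, hij, hik, hjk, hic, hjc, hkc⟩ := three_of_four c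
      have hcr := circle_circle (dist_fB_zero i) (dist_fB_zero j) (dist_fB_zero k)
        (hcirc i (by omega) hic) (hcirc j (by omega) hjc) (hcirc k (by omega) hkc)
        (fun h => hij (fB_inj h)) (fun h => hik (fB_inj h)) (fun h => hjk (fB_inj h))
      have hc : c ∈ pts n fB := (hmem c).2 (Or.inl rfl)
      obtain ⟨m, -, hm⟩ := mem_pts.1 hc
      exact fB_ne_zero m (hm.trans hcr.1)
  · intro n hn
    have hmemB : ∀ i < n - 1, fB i ∈ pts n (fC n) := fun i hi => fB_mem_fC hi
    have h0 : (0 : Plane) ∈ pts n (fC n) := zero_mem_fC (by omega)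
    have hcoc : ¬ Cocircular (pts n (fC n)) := by
      rintro ⟨c, r, h⟩
      have hr : 0 < r := by
        have h1 := h _ (hmemB 0 (by omega))
        have h2 := h _ h0
        by_contra h3
        have h4 : r = 0 := le_antisymm (not_lt.1 h3) (h1 ▸ dist_nonneg)
        rw [h4, dist_eq_zero] at h1 h2
        exact fB_ne_zero 0 (h1.trans h2.symm)
      have hcr := circle_circle (dist_fB_zero 0) (dist_fB_zero 1) (dist_fB_zero 2)
        (h _ (hmemB 0 (by omega))) (h _ (hmemB 1 (by omega))) (h _ (hmemB 2 (by omega)))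
        (fun h => by have := fB_inj h; omega) (fun h => by have := fB_inj h; omega)
        (fun h => by have := fB_inj h; omega)
      have h1 := h _ h0
      rw [hcr.1, hcr.2, dist_self] at h1
      norm_num at h1
    refine ⟨pts n (fC n), card_fC n, aC n, hcoc, ?_, ?_, ?_⟩
    · intro h
      exact not_onLine (hmemB 0 (by omega)) (hmemB 1 (by omega)) (hmemB 2 (by omega))
        (dist_fB_zero 0) (dist_fB_zero 1) (dist_fB_zero 2)
        (fun h => by have := fB_inj h; omega) (fun h => by have := fB_inj h; omega)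
        (fun h => by have := fB_inj h; omega) (typeA_onLine h)
    · rintro ⟨c, r, α, θ, hr, h1, h2, hX⟩
      apply hcoc
      refine ⟨c, r, fun x hx => ?_⟩
      have hx' : x ∈ (pts n (fC n) : Set Plane) := hx
      rw [hX] at hx'
      obtain ⟨j, -, hj⟩ := hx'
      rw [hj]
      exact dist_center c hr _
    · rintro ⟨c, r, α, θ, hr, h1, h2, hX⟩
      have hmem : ∀ x, x ∈ pts n (fC n) ↔
          x = c ∨ ∃ j, j ≤ n - 2 ∧ x = c + r • e (α + (j : ℝ) * θ) := by
        intro x
        exact mem_iff_of_coe hX x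
      have hcirc : ∀ x ∈ pts n (fC n), x ≠ c → dist x c = r := by
        intro x hx hxc
        rcases (hmem x).1 hx with h | ⟨j, -, hj⟩
        · exact absurd h hxc
        · rw [hj]
          exact dist_center c hr _
      obtain ⟨i, j, k, hi, hj, hk, hij, hik, hjk, hic, hjc, hkc⟩ := three_of_four c
      have hcr := circle_circle (dist_fB_zero i) (dist_fB_zero j) (dist_fB_zero k)
        (hcirc _ (hmemB i (by omega)) hic) (hcirc _ (hmemB j (by omega)) hjc)
        (hcirc _ (hmemB k (by omega)) hkc)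
        (fun h => hij (fB_inj h)) (fun h => hik (fB_inj h)) (fun h => hjk (fB_inj h))
      obtain ⟨hc0, hr1⟩ := hcr
      subst hc0
      apply not_typeB (n := n - 1) (by omega)
      have hcast : ((n - 1 : ℕ) : ℝ) = (n : ℝ) - 1 := by
        rw [Nat.cast_sub (by omega)]
        norm_num
      refine ⟨0, r, α, θ, hr, ?_, ?_, ?_⟩
      · rw [hcast]
        linarith
      · rw [hcast]
        linarith
      · ext x
        constructor
        · intro hx
          obtain ⟨m, hm, rfl⟩ := mem_pts.1 hx
          rcases (hmem (fB m)).1 (hmemB m hm) with h | ⟨j, hj, hj2⟩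
          · exact absurd h (fB_ne_zero m)
          · exact ⟨j, by omega, hj2⟩
        · rintro ⟨j, hj, rfl⟩
          have hx := (hmem (0 + r • e (α + (j : ℝ) * θ))).2 (Or.inr ⟨j, by omega, rfl⟩)
          obtain ⟨m, hm, hm2⟩ := mem_pts.1 hx
          rw [mem_coe, mem_pts]
          refine ⟨m, ?_, ?_⟩
          · by_contra hcon
            have hmn : m = n - 1 := by omega
            unfold fC at hm2
            rw [if_pos hmn] at hm2
            have hd := dist_center 0 hr (α + (j : ℝ) * θ)
            rw [← hm2, dist_self] at hd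
            exact hr.ne hd
          · unfold fC at hm2
            split_ifs at hm2 with hmn
            · exfalso
              have hd := dist_center 0 hr (α + (j : ℝ) * θ)
              rw [← hm2, dist_self] at hd
              exact hr.ne hd
            · exact hm2

end Pool.Agent.Results.MP_9c346b_co.WrappedProgressions
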